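import Mathlib

set_option autoImplicit false

/-! # Induction on finite trees by cutting an edge at the root -/

namespace Pool.Agent.H273.TreeInd

open Classical

variable {V : Type} [Fintype V]

/-- the edges of `G` inside `S`, as a graph on the same vertex set -/
def res (G : SimpleGraph V) (S : Finset V) : SimpleGraph V where
  Adj a b := G.Adj a b ∧ a ∈ S ∧ b ∈ S
  symm := ⟨fun _ _ h => ⟨G.adj_symm h.1, h.2.2, h.2.1⟩⟩
  loopless := ⟨fun _ h => G.loopless.1 _ h.1⟩

/-- `S` is connected in `G` -/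
def Conn (G : SimpleGraph V) (S : Finset V) : Prop :=
  ∀ a ∈ S, ∀ b ∈ S, (res G S).Reachable a b

/-- the part of `S` on the side of `c` after deleting `r` -/
noncomputable def side (G : SimpleGraph V) (S : Finset V) (r c : V) : Finset V :=
  S.filter (fun w => w ≠ r ∧ (res G (S.erase r)).Reachable c w)

theorem mem_side {G : SimpleGraph V} {S : Finset V} {r c w : V} :
    w ∈ side G S r c ↔ w ∈ S ∧ w ≠ r ∧ (res G (S.erase r)).Reachable c w := by
  simp [side]

theorem side_closed {G : SimpleGraph V} {S : Finset V} {r c x y : V} (hx : x ∈ S) (hxr : x ≠ r)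
    (hy : y ∈ side G S r c) (h : G.Adj x y) : x ∈ side G S r c := by
  rw [mem_side] at hy ⊢
  refine ⟨hx, hxr, hy.2.2.trans (SimpleGraph.Adj.reachable ?_)⟩
  exact ⟨G.adj_symm h, Finset.mem_erase.2 ⟨hy.2.1, hy.1⟩, Finset.mem_erase.2 ⟨hxr, hx⟩⟩

theorem conn_side {G : SimpleGraph V} {S : Finset V} {r c : V} (hc : c ∈ S) (hcr : c ≠ r) :
    Conn G (side G S r c) := by
  have hcs : c ∈ side G S r c := mem_side.2 ⟨hc, hcr, SimpleGraph.Reachable.refl _⟩
  have key : ∀ (a b : V), (res G (S.erase r)).Walk a b → b ∈ side G S r c →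
      (res G (side G S r c)).Reachable a b := by
    intro a b p
    induction p with
    | nil => intro _; exact SimpleGraph.Reachable.refl _
    | @cons u v w h p ih =>
      intro hb
      have hv : v ∈ side G S r c := by
        rw [mem_side] at hb ⊢
        have h2 := Finset.mem_erase.1 h.2.2
        exact ⟨h2.2, h2.1, hb.2.2.trans (SimpleGraph.Reachable.symm ⟨p⟩)⟩
      have hu : u ∈ side G S r c := by
        have h2 := Finset.mem_erase.1 h.2.1
        exact side_closed h2.2 h2.1 hv h.1
      exact (SimpleGraph.Adj.reachable (⟨h.1, hu, hv⟩ : (res G (side G S r c)).Adj u v)).trans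
        (ih hb)
  have key2 : ∀ b ∈ side G S r c, (res G (side G S r c)).Reachable c b := by
    intro b hb
    obtain ⟨p⟩ := (mem_side.1 hb).2.2
    exact key _ _ p hb
  intro a ha b hb
  exact (key2 a ha).symm.trans (key2 b hb)

theorem conn_rest {G : SimpleGraph V} {S : Finset V} {r c : V} (hr : r ∈ S) (hS : Conn G S) :
    Conn G (S \ side G S r c) := by
  have hrs : r ∈ S \ side G S r c := by
    rw [Finset.mem_sdiff, mem_side]
    exact ⟨hr, fun h => h.2.1 rfl⟩
  have key : ∀ (w b : V), (res G S).Walk w b → b = r → w ∈ S \ side G S r c →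
      (res G (S \ side G S r c)).Reachable w r := by
    intro w b p
    induction p with
    | nil => intro h _; rw [h]
    | @cons u v w h p ih =>
      intro hb hu
      by_cases hur : u = r
      · rw [hur]
      · by_cases hvr : v = r
        · subst hvr
          exact SimpleGraph.Adj.reachable
            (⟨h.1, hu, hrs⟩ : (res G (S \ side G S v c)).Adj u v)
        · have hv : v ∈ S \ side G S r c := by
            rw [Finset.mem_sdiff]
            refine ⟨h.2.2, fun hv => ?_⟩
            exact (Finset.mem_sdiff.1 hu).2 (side_closed h.2.1 hur hv h.1)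
          exact (SimpleGraph.Adj.reachable
            (⟨h.1, hu, hv⟩ : (res G (S \ side G S r c)).Adj u v)).trans (ih hb hv)
  have key2 : ∀ w ∈ S \ side G S r c, (res G (S \ side G S r c)).Reachable w r := by
    intro w hw
    obtain ⟨p⟩ := hS w (Finset.mem_sdiff.1 hw).1 r hr
    exact key _ _ p rfl hw
  intro a ha b hb
  exact (key2 a ha).trans (key2 b hb).symm

omit [Fintype V] in
theorem exists_nbr {G : SimpleGraph V} {S : Finset V} {r : V} (hr : r ∈ S) (hS : Conn G S)
    (h2 : S ≠ {r}) : ∃ c ∈ S, G.Adj r c := by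
  have h3 : ∃ w ∈ S, w ≠ r := by
    by_contra h
    push Not at h
    apply h2
    ext x
    rw [Finset.mem_singleton]
    exact ⟨fun hx => h x hx, fun hx => hx ▸ hr⟩
  obtain ⟨w, hw, hwr⟩ := h3
  obtain ⟨p⟩ := hS r hr w hw
  cases p with
  | nil => exact absurd rfl hwr
  | @cons _ v _ h p => exact ⟨v, h.2.2, h.1⟩

theorem cross {G : SimpleGraph V} (hG : G.IsAcyclic) {S : Finset V} {r c x y : V}
    (hrc : G.Adj r c) (hx : x ∈ S \ side G S r c) (hy : y ∈ side G S r c) (h : G.Adj x y) :
    x = r ∧ y = c := by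
  have hxr : x = r := by
    by_contra hxr
    have h1 := Finset.mem_sdiff.1 hx
    exact h1.2 (side_closed h1.1 hxr hy h)
  refine ⟨hxr, ?_⟩
  by_contra hyc
  rw [hxr] at h
  have hb := (SimpleGraph.isAcyclic_iff_forall_isBridge.1 hG) (G.mem_edgeSet.2 h)
  rw [SimpleGraph.isBridge_iff] at hb
  apply hb
  have h1 : (G.deleteEdges {s(r, y)}).Adj r c := by
    rw [SimpleGraph.deleteEdges_adj]
    refine ⟨hrc, ?_⟩
    intro h2
    have h3 : s(r, c) = s(r, y) := h2
    rw [Sym2.eq_iff] at h3
    rcases h3 with h3 | h3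
    · exact hyc h3.2.symm
    · exact (mem_side.1 hy).2.1 h3.1.symm
  refine h1.reachable.trans ?_
  refine (mem_side.1 hy).2.2.mono ?_
  intro a b hab
  rw [SimpleGraph.deleteEdges_adj]
  refine ⟨hab.1, ?_⟩
  intro h2
  have h3 : s(a, b) = s(r, y) := h2
  rw [Sym2.eq_iff] at h3
  have ha := (Finset.mem_erase.1 hab.2.1).1
  have hb := (Finset.mem_erase.1 hab.2.2).1
  rcases h3 with h3 | h3
  · exact ha h3.1
  · exact hb h3.2

/-- induction on subtrees: cut an edge at the root -/
theorem induct (G : SimpleGraph V) (hG : G.IsAcyclic) (P : Finset V → V → Prop)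
    (base : ∀ r, P {r} r)
    (step : ∀ (S₁ S₂ : Finset V) (r c : V), r ∈ S₁ → c ∈ S₂ → Disjoint S₁ S₂ → G.Adj r c →
      (∀ x ∈ S₁, ∀ y ∈ S₂, G.Adj x y → x = r ∧ y = c) → P S₁ r → P S₂ c → P (S₁ ∪ S₂) r) :
    ∀ (S : Finset V), Conn G S → ∀ r ∈ S, P S r := by
  intro S
  induction hn : S.card using Nat.strong_induction_on generalizing S with
  | _ n ih =>
    intro hS r hr
    by_cases h1 : S = {r}
    · rw [h1]; exact base r
    · obtain ⟨c, hc, hrc⟩ := exists_nbr hr hS h1
      have hcr : c ≠ r := fun h => G.loopless.1 _ (h ▸ hrc)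
      have hcs : c ∈ side G S r c := mem_side.2 ⟨hc, hcr, SimpleGraph.Reachable.refl _⟩
      have hrs : r ∈ S \ side G S r c := by
        rw [Finset.mem_sdiff, mem_side]
        exact ⟨hr, fun h => h.2.1 rfl⟩
      have hsub : side G S r c ⊆ S := fun x hx => (mem_side.1 hx).1
      have hu : S \ side G S r c ∪ side G S r c = S := Finset.sdiff_union_of_subset hsub
      have hd : Disjoint (S \ side G S r c) (side G S r c) := Finset.sdiff_disjoint
      have hcard := Finset.card_sdiff_add_card_eq_card hsub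
      have hp1 : 0 < (side G S r c).card := Finset.card_pos.2 ⟨c, hcs⟩
      have hp2 : 0 < (S \ side G S r c).card := Finset.card_pos.2 ⟨r, hrs⟩
      rw [← hu]
      refine step _ _ r c hrs hcs hd hrc (fun x hx y hy h => cross hG hrc hx hy h) ?_ ?_
      · exact ih _ (by omega) _ rfl (conn_rest hr hS) r hrs
      · exact ih _ (by omega) _ rfl (conn_side hc hcr) c hcs

theorem conn_univ {G : SimpleGraph V} (hG : G.Connected) : Conn G Finset.univ := by
  intro a _ b _
  refine (hG.preconnected a b).mono ?_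
  intro x y h
  exact ⟨h, Finset.mem_univ _, Finset.mem_univ _⟩

/-- induction for a whole finite tree -/
theorem induct_tree (G : SimpleGraph V) (hG : G.IsTree) (P : Finset V → V → Prop)
    (base : ∀ r, P {r} r)
    (step : ∀ (S₁ S₂ : Finset V) (r c : V), r ∈ S₁ → c ∈ S₂ → Disjoint S₁ S₂ → G.Adj r c →
      (∀ x ∈ S₁, ∀ y ∈ S₂, G.Adj x y → x = r ∧ y = c) → P S₁ r → P S₂ c → P (S₁ ∪ S₂) r) :
    ∀ r, P Finset.univ r := by
  intro r
  exact induct G hG.isAcyclic P base step _ (conn_univ hG.connected) r (Finset.mem_univ _)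

end Pool.Agent.H273.TreeInd
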